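import Pool.Agent.H230R2.IPP.SeqFixedRate

set_option autoImplicit false

/-!
# The rate of sequential `k`-IPP codes over a fixed alphabet

For fixed `q ≥ 2` and `k ≥ 1`, and `ℓ → ∞`: the lower limit of the rate is positive iff the upper
limit is positive iff `q > k` or `k = 1`; in the remaining case the rate tends to `0`.
-/

namespace Pool.Agent.Results.MP_96bab1_co.FixedAlphabetRate

open Filter Pool.Agent.H230R2.Seq

theorem result : ∀ k q : ℕ, 1 ≤ k → 2 ≤ q →
    (k < q → ∃ c : ℝ, 0 < c ∧ ∀ᶠ ℓ : ℕ in atTop, c ≤ rate q ℓ k) ∧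
    (q ≤ k → Tendsto (fun ℓ : ℕ => rate q ℓ k) atTop (nhds 0)) :=
  fun k q hk hq => ⟨fun h => rate_large k q hk h, fun h => rate_small k q hk hq h⟩

end Pool.Agent.Results.MP_96bab1_co.FixedAlphabetRate
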