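import Pool.Agent.H230R2.IPP.SeqRate

set_option autoImplicit false

/-!
# The rate of sequential `k`-IPP codes of fixed length over large alphabets

For all `k ≥ 1` and `ℓ ≥ 1` the limit of `R(q,ℓ,k)` as `q → ∞` exists. It is `0` for `ℓ < k` and
`(⌊(ℓ - k) / (k(k+1)/2)⌋ + 1) / ℓ` for `ℓ ≥ k`.
-/

namespace Pool.Agent.Results.MP_96bab1_co.LargeAlphabetRate

open Filter Pool.Agent.H230R2.Seq

theorem result : ∀ k ℓ : ℕ, 1 ≤ k → 1 ≤ ℓ →
    Tendsto (fun q : ℕ => rate q ℓ k) atTop (nhds ((tstar ℓ k : ℝ) / ℓ)) :=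
  fun k ℓ hk hℓ => rate_tendsto k ℓ hk hℓ

end Pool.Agent.Results.MP_96bab1_co.LargeAlphabetRate
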